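import Pool.Agent.Q141.BaseR.Sums

set_option autoImplicit false

/-!
# MP_ffae75_co: the base-r simplices are not always Ehrhart positive

For every `r ≥ 14` the coefficient of `t` in the Ehrhart polynomial of the base-`r` simplex of
dimension `5` is negative.
-/

namespace Pool.Agent.Results.MP_ffae75_co.NegativeLinear

open Finset
open Pool.Agent.Q141.BaseR

/-- The base-`r` `d`-simplex: the convex hull of the standard basis vectors and of the point
`-(r-1, (r-1) r, ..., (r-1) r^(d-1))`. -/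
def baseSimplex (r d : ℕ) : Set (Fin d → ℝ) :=
  convexHull ℝ (Set.range (fun i : Fin d => (Pi.single i 1 : Fin d → ℝ)) ∪
    {fun k : Fin d => -(((r : ℝ) - 1) * (r : ℝ) ^ (k : ℕ))})

/-- The number of integer points in the `t`-th dilate of `P`. -/
noncomputable def ehr {d : ℕ} (P : Set (Fin d → ℝ)) (t : ℕ) : ℕ :=
  Set.ncard {x : Fin d → ℤ | (fun i => (x i : ℝ)) ∈ (fun y => (t : ℝ) • y) '' P}

/-- `P` has an Ehrhart polynomial, and its coefficients of `t^0, ..., t^d` are positive. -/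
def EhrhartPositive {d : ℕ} (P : Set (Fin d → ℝ)) : Prop :=
  ∃ p : Polynomial ℚ, (∀ t : ℕ, (ehr P t : ℚ) = p.eval (t : ℚ)) ∧ ∀ i ≤ d, 0 < p.coeff i

/-! ### Description by inequalities -/

/-- the coordinates of the opposite of the last vertex -/
def qq (r : ℕ) {d : ℕ} (k : Fin d) : ℝ := ((r : ℝ) - 1) * (r : ℝ) ^ (k : ℕ)

lemma sum_qq (r d : ℕ) : ∑ k : Fin d, qq r k = (r : ℝ) ^ d - 1 := by
  unfold qq
  rw [← Finset.mul_sum, Fin.sum_univ_eq_sum_range (fun k => (r : ℝ) ^ k), mul_geom_sum]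

lemma qq_nonneg (r : ℕ) (hr : 1 ≤ r) {d : ℕ} (k : Fin d) : 0 ≤ qq r k := by
  unfold qq
  have : (1 : ℝ) ≤ r := by exact_mod_cast hr
  have h1 : (0 : ℝ) ≤ (r : ℝ) - 1 := by linarith
  positivity

lemma mem_base (r d : ℕ) (hr : 1 ≤ r) (y : Fin d → ℝ) : y ∈ baseSimplex r d ↔
    0 ≤ 1 - ∑ k, y k ∧ ∀ k, 0 ≤ (r : ℝ) ^ d * y k + (1 - ∑ k, y k) * qq r k := by
  have hr0 : (0 : ℝ) < r := by exact_mod_cast hr
  have hrd : (0 : ℝ) < (r : ℝ) ^ d := pow_pos hr0 d
  constructor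
  · intro hy
    have hH : Convex ℝ {y : Fin d → ℝ | 0 ≤ 1 - ∑ k, y k ∧
        ∀ k, 0 ≤ (r : ℝ) ^ d * y k + (1 - ∑ k, y k) * qq r k} := by
      rintro x ⟨hx1, hx2⟩ y ⟨hy1, hy2⟩ a b ha hb hab
      have hs : 1 - ∑ k, (a • x + b • y) k = a * (1 - ∑ k, x k) + b * (1 - ∑ k, y k) := by
        simp only [Pi.add_apply, Pi.smul_apply, smul_eq_mul, Finset.sum_add_distrib,
          ← Finset.mul_sum]
        linear_combination (-1 : ℝ) * hab
      refine ⟨?_, fun k => ?_⟩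
      · rw [hs]
        exact add_nonneg (mul_nonneg ha hx1) (mul_nonneg hb hy1)
      · have e : (r : ℝ) ^ d * (a • x + b • y) k + (1 - ∑ k, (a • x + b • y) k) * qq r k =
            a * ((r : ℝ) ^ d * x k + (1 - ∑ k, x k) * qq r k) +
              b * ((r : ℝ) ^ d * y k + (1 - ∑ k, y k) * qq r k) := by
          rw [hs]
          simp only [Pi.add_apply, Pi.smul_apply, smul_eq_mul]
          ring
        rw [e]
        exact add_nonneg (mul_nonneg ha (hx2 k)) (mul_nonneg hb (hy2 k))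
    refine convexHull_min ?_ hH hy
    rintro z (⟨i, rfl⟩ | rfl)
    · refine ⟨by simp, fun k => ?_⟩
      simp only [Finset.sum_pi_single', mem_univ, if_true, sub_self, zero_mul, add_zero]
      apply mul_nonneg hrd.le
      by_cases h : k = i
      · subst h; simp
      · simp [h]
    · have e : ∑ k : Fin d, -(((r : ℝ) - 1) * (r : ℝ) ^ (k : ℕ)) = -((r : ℝ) ^ d - 1) := by
        rw [Finset.sum_neg_distrib, ← sum_qq]
        rfl
      refine ⟨?_, fun k => ?_⟩
      · simp only [e]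
        linarith
      · simp only [e]
        unfold qq
        apply le_of_eq
        ring
  · rintro ⟨h1, h2⟩
    have hconv : Convex ℝ (baseSimplex r d) := convex_convexHull ℝ _
    set μ : ℝ := (1 - ∑ k, y k) / (r : ℝ) ^ d with hμ
    have hμ' : μ * (r : ℝ) ^ d = 1 - ∑ k, y k := by rw [hμ]; field_simp
    let w : Option (Fin d) → ℝ := fun o => o.elim μ (fun k => y k + μ * qq r k)
    let z : Option (Fin d) → Fin d → ℝ := fun o =>
      o.elim (fun k => -(((r : ℝ) - 1) * (r : ℝ) ^ (k : ℕ))) (fun i => Pi.single i 1)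
    have hsum := hconv.sum_mem (t := univ) (w := w) (z := z) ?_ ?_ ?_
    · convert hsum using 1
      ext k
      rw [Fintype.sum_option]
      simp only [w, z, Option.elim_none, Option.elim_some, Pi.add_apply, Pi.smul_apply, smul_eq_mul,
        Finset.sum_apply]
      rw [Finset.sum_eq_single k]
      · simp only [Pi.single_eq_same]
        unfold qq
        ring
      · intro b _ hb
        rw [Pi.single_eq_of_ne (Ne.symm hb)]; simp
      · intro h; exact absurd (mem_univ k) h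
    · rintro (_ | k) _
      · simp only [w, Option.elim_none]
        exact div_nonneg h1 hrd.le
      · simp only [w, Option.elim_some]
        have h3 := h2 k
        have h4 : (r : ℝ) ^ d * (y k + μ * qq r k) = (r : ℝ) ^ d * y k + (1 - ∑ k, y k) * qq r k := by
          rw [← hμ']; ring
        rw [← h4] at h3
        exact nonneg_of_mul_nonneg_right h3 hrd
    · rw [Fintype.sum_option]
      simp only [w, Option.elim_none, Option.elim_some]
      rw [Finset.sum_add_distrib, ← Finset.mul_sum, sum_qq]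
      linarith
    · rintro (_ | k) _
      · apply subset_convexHull
        right
        rfl
      · apply subset_convexHull
        left
        exact ⟨k, rfl⟩

/-- the coordinates of the opposite of the last vertex, as natural numbers -/
def qn (ρ : ℕ) (k : ℕ) : ℕ := ρ * (ρ + 1) ^ k

lemma qq_cast (ρ : ℕ) {d : ℕ} (k : Fin d) : qq (ρ + 1) k = ((qn ρ k : ℕ) : ℝ) := by
  unfold qq qn; push_cast; ring

lemma sum_qn (ρ d : ℕ) : ∑ k : Fin d, qn ρ k + 1 = (ρ + 1) ^ d := by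
  have h := sum_qq (ρ + 1) d
  simp_rw [qq_cast] at h
  have h2 : ((∑ k : Fin d, qn ρ k + 1 : ℕ) : ℝ) = (((ρ + 1) ^ d : ℕ) : ℝ) := by
    push_cast at h ⊢
    linarith
  exact_mod_cast h2

lemma mem_dilate (ρ d : ℕ) (t : ℕ) (x : Fin d → ℤ) :
    (fun i => (x i : ℝ)) ∈ (fun y => (t : ℝ) • y) '' baseSimplex (ρ + 1) d ↔
      0 ≤ (t : ℤ) - ∑ k, x k ∧
        ∀ k, 0 ≤ ((ρ + 1 : ℕ) : ℤ) ^ d * x k + ((t : ℤ) - ∑ k, x k) * (qn ρ k : ℤ) := by
  have hr : 1 ≤ ρ + 1 := by omega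
  constructor
  · rintro ⟨y, hy, hyx⟩
    rw [mem_base _ _ hr] at hy
    have hx : ∀ k, (x k : ℝ) = t * y k := fun k => (congrFun hyx k).symm
    have ht : (0 : ℝ) ≤ t := Nat.cast_nonneg t
    have hs : (t : ℝ) - ∑ k, (x k : ℝ) = t * (1 - ∑ k, y k) := by
      simp_rw [hx, ← Finset.mul_sum]; ring
    refine ⟨?_, fun k => ?_⟩
    · have : (0 : ℝ) ≤ (t : ℝ) - ∑ k, (x k : ℝ) := by rw [hs]; exact mul_nonneg ht hy.1
      exact_mod_cast this
    · have : (0 : ℝ) ≤ ((ρ + 1 : ℕ) : ℝ) ^ d * (x k : ℝ) + ((t : ℝ) - ∑ k, (x k : ℝ)) * (qn ρ k : ℝ) := by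
        rw [hs, hx k, ← qq_cast]
        have h3 := mul_nonneg ht (hy.2 k)
        linarith
      exact_mod_cast this
  · rintro ⟨h1, h2⟩
    have hsum : ∑ k, (((ρ + 1 : ℕ) : ℤ) ^ d * x k + ((t : ℤ) - ∑ k, x k) * (qn ρ k : ℤ)) =
        ((ρ + 1 : ℕ) : ℤ) ^ d * t - ((t : ℤ) - ∑ k, x k) := by
      rw [Finset.sum_add_distrib, ← Finset.mul_sum, ← Finset.mul_sum]
      have h3 : (∑ k : Fin d, (qn ρ k : ℤ)) = ((ρ + 1 : ℕ) : ℤ) ^ d - 1 := by
        have := sum_qn ρ d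
        have h4 : ((∑ k : Fin d, qn ρ k + 1 : ℕ) : ℤ) = (((ρ + 1) ^ d : ℕ) : ℤ) := by rw [this]
        push_cast at h4 ⊢
        linarith
      rw [h3]; ring
    rcases Nat.eq_zero_or_pos t with ht | ht
    · subst ht
      have h5 := Finset.sum_nonneg (s := univ) (fun k _ => h2 k)
      rw [hsum] at h5
      simp only [Nat.cast_zero, mul_zero, zero_sub] at h1 h5
      have h6 : (∑ k, x k) = 0 := by
        apply le_antisymm <;> linarith
      have h7 : ∀ k, x k = 0 := by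
        have h8 : ∀ k, 0 ≤ x k := by
          intro k
          have h9 := h2 k
          simp only [Nat.cast_zero, zero_sub, h6, neg_zero, zero_mul, add_zero] at h9
          exact nonneg_of_mul_nonneg_right h9 (by positivity)
        intro k
        exact (Finset.sum_eq_zero_iff_of_nonneg (fun k _ => h8 k)).1 h6 k (mem_univ k)
      refine ⟨fun k => -((((ρ + 1 : ℕ) : ℝ) - 1) * ((ρ + 1 : ℕ) : ℝ) ^ (k : ℕ)),
        subset_convexHull _ _ (Or.inr rfl), ?_⟩
      ext k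
      simp [h7 k]
    · have ht' : (0 : ℝ) < t := by exact_mod_cast ht
      refine ⟨fun k => (x k : ℝ) / t, ?_, ?_⟩
      · rw [mem_base _ _ hr]
        have hs : 1 - ∑ k, (x k : ℝ) / t = ((t : ℝ) - ∑ k, (x k : ℝ)) / t := by
          rw [← Finset.sum_div]; field_simp
        have h1' : (0 : ℝ) ≤ (t : ℝ) - ∑ k, (x k : ℝ) := by exact_mod_cast h1
        refine ⟨?_, fun k => ?_⟩
        · rw [hs]; exact div_nonneg h1' ht'.le
        · rw [hs, qq_cast]
          have h3 : (0 : ℝ) ≤ ((ρ + 1 : ℕ) : ℝ) ^ d * (x k : ℝ) +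
              ((t : ℝ) - ∑ k, (x k : ℝ)) * (qn ρ k : ℝ) := by exact_mod_cast h2 k
          have e : ((ρ + 1 : ℕ) : ℝ) ^ d * ((x k : ℝ) / t) +
              ((t : ℝ) - ∑ k, (x k : ℝ)) / t * (qn ρ k : ℝ) = (((ρ + 1 : ℕ) : ℝ) ^ d * (x k : ℝ) +
              ((t : ℝ) - ∑ k, (x k : ℝ)) * (qn ρ k : ℝ)) / t := by
            field_simp
          rw [e]
          exact div_nonneg h3 ht'.le
      · ext k
        simp only [Pi.smul_apply, smul_eq_mul]
        field_simp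

/-! ### Counting -/

/-- sum of floors -/
def gs (ρ d s : ℕ) : ℕ := ∑ k : Fin d, s * qn ρ k / (ρ + 1) ^ d

lemma gs_add (ρ d s j : ℕ) : gs ρ d (s + (ρ + 1) ^ d * j) + j = gs ρ d s + j * (ρ + 1) ^ d := by
  have h1 : ∀ k : Fin d, (s + (ρ + 1) ^ d * j) * qn ρ k / (ρ + 1) ^ d =
      s * qn ρ k / (ρ + 1) ^ d + j * qn ρ k := by
    intro k
    have e : (s + (ρ + 1) ^ d * j) * qn ρ k = s * qn ρ k + (j * qn ρ k) * (ρ + 1) ^ d := by ring
    rw [e, Nat.add_mul_div_right _ _ (by positivity)]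
  unfold gs
  simp_rw [h1]
  rw [Finset.sum_add_distrib, ← Finset.mul_sum, ← sum_qn ρ d]
  ring

lemma gs_le (ρ d s : ℕ) : gs ρ d s ≤ s := by
  have hpos : 0 < (ρ + 1) ^ d := by positivity
  have h1 : gs ρ d s * (ρ + 1) ^ d ≤ s * (ρ + 1) ^ d := by
    unfold gs
    rw [Finset.sum_mul]
    calc ∑ k : Fin d, s * qn ρ k / (ρ + 1) ^ d * (ρ + 1) ^ d ≤ ∑ k : Fin d, s * qn ρ k :=
          Finset.sum_le_sum fun k _ => Nat.div_mul_le_self _ _
      _ = s * ∑ k : Fin d, qn ρ k := by rw [Finset.mul_sum]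
      _ ≤ s * (ρ + 1) ^ d := Nat.mul_le_mul_left _ (by have := sum_qn ρ d; omega)
  exact Nat.le_of_mul_le_mul_right h1 hpos

/-- the weight -/
def wt (ρ d s : ℕ) : ℕ := s - gs ρ d s

lemma wt_add (ρ d s : ℕ) : wt ρ d s + gs ρ d s = s := Nat.sub_add_cancel (gs_le ρ d s)

lemma card_pi (d n : ℕ) : (piAntidiag (univ : Finset (Option (Fin d))) n).card = (n + d).choose d := by
  have h1 := card_finsuppAntidiag_nat_eq_choose (s := (univ : Finset (Option (Fin d)))) n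
  have h2 : (finsuppAntidiag (univ : Finset (Option (Fin d))) n).card =
      (piAntidiag (univ : Finset (Option (Fin d))) n).card := by
    unfold finsuppAntidiag
    rw [card_map, card_attach]
  rw [← h2, h1]
  have e : (univ : Finset (Option (Fin d))).card + n - 1 = n + d := by simp; omega
  rw [e, Nat.choose_symm_add]

/-- number of solutions -/
def cnt (d t w : ℕ) : ℕ := if w ≤ t then (t - w + d).choose d else 0

lemma ehr_eq (ρ d t : ℕ) : ehr (baseSimplex (ρ + 1) d) t =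
    ∑ s ∈ range ((ρ + 1) ^ d), cnt d t (wt ρ d s) := by
  have hpos : 0 < (ρ + 1) ^ d := by positivity
  let K : Finset (Σ _ : ℕ, (Option (Fin d) → ℕ)) :=
    (range ((ρ + 1) ^ d)).sigma (fun s => if wt ρ d s ≤ t then piAntidiag univ (t - wt ρ d s) else ∅)
  let S : (Σ _ : ℕ, (Option (Fin d) → ℕ)) → ℕ := fun p => p.1 + (ρ + 1) ^ d * p.2 none
  let Φ : (Σ _ : ℕ, (Option (Fin d) → ℕ)) → (Fin d → ℤ) := fun p k =>
    (p.2 (some k) : ℤ) - ((S p * qn ρ k / (ρ + 1) ^ d : ℕ) : ℤ)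
  have hmem : ∀ p, p ∈ K ↔ p.1 < (ρ + 1) ^ d ∧ wt ρ d p.1 ≤ t ∧ ∑ o, p.2 o = t - wt ρ d p.1 := by
    intro p
    rw [Finset.mem_sigma, mem_range]
    refine and_congr_right fun _ => ?_
    split_ifs with h
    · rw [mem_piAntidiag]; simp [h]
    · simp [h]
  have hS : ∀ p ∈ K, (t : ℤ) - ∑ k, Φ p k = S p := by
    intro p hp
    rw [hmem] at hp
    obtain ⟨-, h1, h2⟩ := hp
    have h3 := wt_add ρ d p.1
    have h4 := gs_add ρ d p.1 (p.2 none)
    rw [Fintype.sum_option] at h2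
    have h5 : ∑ k, Φ p k = (∑ k : Fin d, p.2 (some k) : ℕ) - (gs ρ d (S p) : ℕ) := by
      simp only [Φ, gs]
      rw [Finset.sum_sub_distrib]
      push_cast
      rfl
    rw [h5]
    have h6 : gs ρ d (S p) + p.2 none = gs ρ d p.1 + p.2 none * (ρ + 1) ^ d := h4
    have h7 : S p = p.1 + p.2 none * (ρ + 1) ^ d := by simp only [S]; ring
    have h8 : p.2 none + (∑ k : Fin d, p.2 (some k)) + wt ρ d p.1 = t := by omega
    generalize p.2 none * (ρ + 1) ^ d = Q at h6 h7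
    omega
  have hset : {x : Fin d → ℤ | (fun i => (x i : ℝ)) ∈ (fun y => (t : ℝ) • y) '' baseSimplex (ρ + 1) d} =
      Φ '' (K : Set (Σ _ : ℕ, (Option (Fin d) → ℕ))) := by
    ext x
    rw [Set.mem_ofPred_eq, mem_dilate]
    constructor
    · rintro ⟨h1, h2⟩
      obtain ⟨s, hs⟩ := Int.eq_ofNat_of_zero_le h1
      rw [hs] at h2
      have hdm := Nat.mod_add_div s ((ρ + 1) ^ d)
      have hfl : ∀ k : Fin d, 0 ≤ x k + ((s * qn ρ k / (ρ + 1) ^ d : ℕ) : ℤ) := by
        intro k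
        have h3 := h2 k
        have h4 := Nat.mod_add_div (s * qn ρ k) ((ρ + 1) ^ d)
        have h5 := Nat.mod_lt (s * qn ρ k) hpos
        have h6 : (s : ℤ) * (qn ρ k : ℤ) = ((s * qn ρ k % (ρ + 1) ^ d : ℕ) : ℤ) +
            (((ρ + 1) ^ d : ℕ) : ℤ) * ((s * qn ρ k / (ρ + 1) ^ d : ℕ) : ℤ) := by
          exact_mod_cast h4.symm
        rw [h6] at h3
        have h7 : ((s * qn ρ k % (ρ + 1) ^ d : ℕ) : ℤ) < (((ρ + 1) ^ d : ℕ) : ℤ) := by
          exact_mod_cast h5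
        have h8 : (0 : ℤ) < (((ρ + 1) ^ d : ℕ) : ℤ) := by exact_mod_cast hpos
        have h9 : ((ρ + 1 : ℕ) : ℤ) ^ d = (((ρ + 1) ^ d : ℕ) : ℤ) := by push_cast; ring
        rw [h9] at h3
        by_contra hneg
        push Not at hneg
        have h10 : x k + ((s * qn ρ k / (ρ + 1) ^ d : ℕ) : ℤ) ≤ -1 := by omega
        have h11 := mul_le_mul_of_nonneg_left h10 h8.le
        linarith
      let p : (Σ _ : ℕ, (Option (Fin d) → ℕ)) := ⟨s % (ρ + 1) ^ d, fun o =>
        o.elim (s / (ρ + 1) ^ d) (fun k => (x k + ((s * qn ρ k / (ρ + 1) ^ d : ℕ) : ℤ)).toNat)⟩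
      have hSp : S p = s := hdm
      have hΦ : Φ p = x := by
        funext k
        simp only [Φ]
        rw [hSp]
        simp only [p, Option.elim_some]
        rw [Int.toNat_of_nonneg (hfl k)]
        ring
      refine ⟨p, ?_, hΦ⟩
      rw [Finset.mem_coe, hmem]
      have h3 : (∑ k : Fin d, p.2 (some k) : ℕ) = ∑ k, x k + (gs ρ d s : ℤ) := by
        unfold gs
        push_cast
        rw [← Finset.sum_add_distrib]
        apply sum_congr rfl
        intro k _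
        simp only [p, Option.elim_some]
        rw [Int.toNat_of_nonneg (hfl k)]
        push_cast
        rfl
      have h4 := gs_add ρ d (s % (ρ + 1) ^ d) (s / (ρ + 1) ^ d)
      rw [hdm] at h4
      have h5 := wt_add ρ d (s % (ρ + 1) ^ d)
      have h6 : p.2 none = s / (ρ + 1) ^ d := rfl
      have h7 : p.1 = s % (ρ + 1) ^ d := rfl
      have h8 : s / (ρ + 1) ^ d * (ρ + 1) ^ d = (ρ + 1) ^ d * (s / (ρ + 1) ^ d) := Nat.mul_comm _ _
      rw [Fintype.sum_option, h6, h7]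
      refine ⟨Nat.mod_lt _ hpos, ?_⟩
      generalize (ρ + 1) ^ d * (s / (ρ + 1) ^ d) = Q at hdm h8
      generalize s / (ρ + 1) ^ d * (ρ + 1) ^ d = Q' at h4 h8
      generalize (∑ k : Fin d, p.2 (some k)) = A at h3 ⊢
      omega
    · rintro ⟨p, hp, rfl⟩
      rw [Finset.mem_coe] at hp
      rw [hS p hp]
      refine ⟨Int.natCast_nonneg _, fun k => ?_⟩
      simp only [Φ]
      have h4 := Nat.mod_add_div (S p * qn ρ k) ((ρ + 1) ^ d)
      have h6 : (S p : ℤ) * (qn ρ k : ℤ) = ((S p * qn ρ k % (ρ + 1) ^ d : ℕ) : ℤ) +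
          ((ρ + 1 : ℕ) : ℤ) ^ d * ((S p * qn ρ k / (ρ + 1) ^ d : ℕ) : ℤ) := by
        exact_mod_cast h4.symm
      rw [h6]
      have e : ((ρ + 1 : ℕ) : ℤ) ^ d * ((p.2 (some k) : ℤ) - ((S p * qn ρ k / (ρ + 1) ^ d : ℕ) : ℤ)) +
          (((S p * qn ρ k % (ρ + 1) ^ d : ℕ) : ℤ) +
            ((ρ + 1 : ℕ) : ℤ) ^ d * ((S p * qn ρ k / (ρ + 1) ^ d : ℕ) : ℤ)) =
          ((ρ + 1 : ℕ) : ℤ) ^ d * (p.2 (some k) : ℤ) + ((S p * qn ρ k % (ρ + 1) ^ d : ℕ) : ℤ) := by ring
      rw [e]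
      positivity
  have hinj : Set.InjOn Φ (K : Set (Σ _ : ℕ, (Option (Fin d) → ℕ))) := by
    intro p hp p' hp' h
    rw [Finset.mem_coe] at hp hp'
    have h1 := hS p hp
    have h2 := hS p' hp'
    rw [h] at h1
    have h3 : S p = S p' := by
      have : (S p : ℤ) = S p' := by rw [← h1, ← h2]
      exact_mod_cast this
    rw [hmem] at hp hp'
    have h4 : p.1 = p'.1 := by
      have e1 : S p % (ρ + 1) ^ d = p.1 := by
        simp only [S]; rw [Nat.add_mul_mod_self_left, Nat.mod_eq_of_lt hp.1]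
      have e2 : S p' % (ρ + 1) ^ d = p'.1 := by
        simp only [S]; rw [Nat.add_mul_mod_self_left, Nat.mod_eq_of_lt hp'.1]
      rw [← e1, ← e2, h3]
    have h5 : p.2 none = p'.2 none := by
      have : p.1 + (ρ + 1) ^ d * p.2 none = p'.1 + (ρ + 1) ^ d * p'.2 none := h3
      rw [h4] at this
      exact Nat.eq_of_mul_eq_mul_left hpos (Nat.add_left_cancel this)
    have h6 : p.2 = p'.2 := by
      funext o
      rcases o with _ | k
      · exact h5
      · have := congrFun h k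
        simp only [Φ] at this
        rw [h3] at this
        omega
    obtain ⟨a, f⟩ := p
    obtain ⟨a', f'⟩ := p'
    simp only at h4 h6
    subst h4
    subst h6
    rfl
  unfold ehr
  rw [hset, Set.InjOn.ncard_image hinj, Set.ncard_coe_finset, Finset.card_sigma]
  apply sum_congr rfl
  intro s _
  unfold cnt
  split_ifs with h
  · rw [card_pi]
  · simp

/-! ### The automaton -/

/-- another form of the sum of floors -/
def gf (ρ d s : ℕ) : ℕ := ∑ j ∈ range d, ρ * s / (ρ + 1) ^ (j + 1)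

lemma gs_eq_gf (ρ d s : ℕ) : gs ρ d s = gf ρ d s := by
  unfold gs gf
  rw [Fin.sum_univ_eq_sum_range (fun k => s * qn ρ k / (ρ + 1) ^ d), ← Finset.sum_range_reflect]
  apply sum_congr rfl
  intro j hj
  rw [mem_range] at hj
  have e1 : s * qn ρ (d - 1 - j) = (ρ * s) * (ρ + 1) ^ (d - 1 - j) := by unfold qn; ring
  have e2 : (ρ + 1) ^ d = (ρ + 1) ^ (j + 1) * (ρ + 1) ^ (d - 1 - j) := by
    rw [← pow_add]; congr 1; omega
  rw [e1, e2, Nat.mul_div_mul_right _ _ (by positivity)]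

/-- the state -/
def st (ρ d s : ℕ) : ℕ := ρ * s / (ρ + 1) ^ d

lemma st_lt (ρ d s : ℕ) (hρ : 1 ≤ ρ) (hs : s < (ρ + 1) ^ d) : st ρ d s < ρ := by
  unfold st
  rw [Nat.div_lt_iff_lt_mul (by positivity)]
  exact Nat.mul_lt_mul_of_pos_left hs (by omega)

lemma st_succ (ρ d s a : ℕ) (hs : st ρ d s < ρ) (ha : a ≤ ρ) :
    st ρ (d + 1) (s + (ρ + 1) ^ d * a) = if st ρ d s < a then a - 1 else a := by
  have h1 : ρ * (s + (ρ + 1) ^ d * a) = ρ * s + (ρ * a) * (ρ + 1) ^ d := by ring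
  have h2 : st ρ (d + 1) (s + (ρ + 1) ^ d * a) = (st ρ d s + ρ * a) / (ρ + 1) := by
    unfold st
    rw [h1, pow_succ, ← Nat.div_div_eq_div_mul, Nat.add_mul_div_right _ _ (by positivity)]
  rw [h2]
  generalize st ρ d s = c at hs
  split_ifs with h
  · obtain ⟨b, rfl⟩ : ∃ b, a = b + 1 := ⟨a - 1, by omega⟩
    have e : c + ρ * (b + 1) = (c + ρ - b) + (ρ + 1) * b := by
      have : b ≤ c + ρ := by omega
      zify [this]; ring
    rw [e, Nat.add_mul_div_left _ _ (by omega), Nat.div_eq_of_lt (by omega)]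
    omega
  · have e : c + ρ * a = (c - a) + (ρ + 1) * a := by
      have : a ≤ c := by omega
      zify [this]; ring
    rw [e, Nat.add_mul_div_left _ _ (by omega), Nat.div_eq_of_lt (by omega)]
    omega

lemma gf_succ (ρ d s a : ℕ) (hs : st ρ d s < ρ) (ha : a ≤ ρ) :
    gf ρ (d + 1) (s + (ρ + 1) ^ d * a) + (if st ρ d s < a then 1 else 0) =
      gf ρ d s + (ρ + 1) ^ d * a := by
  have h1 : ∀ j ∈ range d, ρ * (s + (ρ + 1) ^ d * a) / (ρ + 1) ^ (j + 1) =
      ρ * s / (ρ + 1) ^ (j + 1) + a * (ρ * (ρ + 1) ^ (d - 1 - j)) := by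
    intro j hj
    rw [mem_range] at hj
    have e2 : (ρ + 1) ^ d = (ρ + 1) ^ (d - 1 - j) * (ρ + 1) ^ (j + 1) := by
      rw [← pow_add]; congr 1; omega
    have e1 : ρ * (s + (ρ + 1) ^ d * a) = ρ * s + (a * (ρ * (ρ + 1) ^ (d - 1 - j))) * (ρ + 1) ^ (j + 1) := by
      rw [e2]; ring
    rw [e1, Nat.add_mul_div_right _ _ (by positivity)]
  have h2 : ∑ j ∈ range d, ρ * (ρ + 1) ^ (d - 1 - j) + 1 = (ρ + 1) ^ d := by
    rw [Finset.sum_range_reflect (fun j => ρ * (ρ + 1) ^ j)]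
    have := sum_qn ρ d
    rw [Fin.sum_univ_eq_sum_range (fun k => qn ρ k)] at this
    exact this
  have h3 : ρ * (s + (ρ + 1) ^ d * a) / (ρ + 1) ^ (d + 1) = if st ρ d s < a then a - 1 else a :=
    st_succ ρ d s a hs ha
  unfold gf
  rw [sum_range_succ, sum_congr rfl h1, h3, sum_add_distrib, ← mul_sum, ← h2]
  generalize (∑ j ∈ range d, ρ * (ρ + 1) ^ (d - 1 - j)) = Q
  generalize (∑ j ∈ range d, ρ * s / (ρ + 1) ^ (j + 1)) = Q'
  have e : (Q + 1) * a = a * Q + a := by ring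
  rw [e]
  split_ifs <;> omega

lemma wt_succ (ρ d s a : ℕ) (hs : st ρ d s < ρ) (ha : a ≤ ρ) :
    wt ρ (d + 1) (s + (ρ + 1) ^ d * a) = wt ρ d s + (if st ρ d s < a then 1 else 0) := by
  have h1 := gf_succ ρ d s a hs ha
  have h2 := wt_add ρ (d + 1) (s + (ρ + 1) ^ d * a)
  have h3 := wt_add ρ d s
  rw [gs_eq_gf] at h2 h3
  omega

lemma sum_range_mul (m n : ℕ) (f : ℕ → ℚ) :
    ∑ i ∈ range (n * m), f i = ∑ s ∈ range n, ∑ a ∈ range m, f (s + n * a) := by
  induction m with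
  | zero => simp
  | succ m ih =>
    rw [Nat.mul_succ, Finset.sum_range_add, ih, ← Finset.sum_add_distrib]
    apply sum_congr rfl
    intro s _
    rw [sum_range_succ]
    congr 2
    ring

/-- the sum over all numbers with `d` digits -/
def SS (ρ d : ℕ) (H : ℕ → ℕ → ℚ) : ℚ := ∑ s ∈ range ((ρ + 1) ^ d), H (st ρ d s) (wt ρ d s)

lemma SS_succ (ρ d : ℕ) (hρ : 1 ≤ ρ) (H : ℕ → ℕ → ℚ) : SS ρ (d + 1) H = SS ρ d (TT ρ H) := by
  unfold SS
  rw [pow_succ, sum_range_mul]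
  apply sum_congr rfl
  intro s hs
  rw [mem_range] at hs
  have hst := st_lt ρ d s hρ hs
  have h1 : ∀ a ∈ range (ρ + 1), H (st ρ (d + 1) (s + (ρ + 1) ^ d * a)) (wt ρ (d + 1) (s + (ρ + 1) ^ d * a)) =
      if st ρ d s < a then H (a - 1) (wt ρ d s + 1) else H a (wt ρ d s) := by
    intro a ha
    rw [mem_range] at ha
    rw [st_succ ρ d s a hst (by omega), wt_succ ρ d s a hst (by omega)]
    split_ifs <;> rfl
  rw [sum_congr rfl h1]
  generalize st ρ d s = c at hst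
  generalize wt ρ d s = w
  unfold TT
  have e1 : ρ + 1 = (c + 1) + (ρ - c) := by omega
  have e2 : ρ = c + (ρ - c) := by omega
  have h2 : ∑ b ∈ range ρ, H b (w + 1) = ∑ b ∈ range c, H b (w + 1) +
      ∑ x ∈ range (ρ - c), H (c + x) (w + 1) := by
    conv_lhs => rw [e2]
    rw [Finset.sum_range_add]
  rw [h2, e1, Finset.sum_range_add]
  have h3 : ∀ a ∈ range (c + 1), (if c < a then H (a - 1) (w + 1) else H a w) = H a w := by
    intro a ha
    rw [mem_range] at ha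
    rw [if_neg (by omega)]
  have h4 : ∀ x ∈ range (ρ - c), (if c < c + 1 + x then H (c + 1 + x - 1) (w + 1) else H (c + 1 + x) w) =
      H (c + x) (w + 1) := by
    intro x _
    rw [if_pos (by omega)]
    congr 1
    omega
  rw [sum_congr rfl h3, sum_congr rfl h4]
  ring

lemma SS_five (ρ : ℕ) (hρ : 1 ≤ ρ) (F : ℕ → ℚ) :
    ∑ s ∈ range ((ρ + 1) ^ 5), F (wt ρ 5 s) = g5 ρ F 0 0 := by
  have h0 : ∑ s ∈ range ((ρ + 1) ^ 5), F (wt ρ 5 s) = SS ρ 5 (fun (c w : ℕ) => g0 ρ F c w) := by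
    unfold SS g0
    simp
  rw [h0, SS_succ ρ 4 hρ, step_g0, SS_succ ρ 3 hρ, step_g1, SS_succ ρ 2 hρ, step_g2,
    SS_succ ρ 1 hρ, step_g3, SS_succ ρ 0 hρ, step_g4]
  unfold SS st wt gs
  simp

/-! ### The polynomial -/

/-- the Ehrhart polynomial of the base-`r` simplex of dimension 5 -/
noncomputable def pp (r : ℚ) : Polynomial ℚ :=
  Polynomial.C 1 +
  Polynomial.C (25 / 12 + r / 30 + 13 * r ^ 2 / 144 + r ^ 3 / 12 - r ^ 4 / 144) * Polynomial.X +
  Polynomial.C (35 / 24 + 5 * r / 48 + 5 * r ^ 2 / 24 + 5 * r ^ 3 / 48) * Polynomial.X ^ 2 +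
  Polynomial.C (5 / 12 + r / 24 + 7 * r ^ 2 / 72 + r ^ 3 / 12 + 5 * r ^ 4 / 72) * Polynomial.X ^ 3 +
  Polynomial.C ((2 + r + r ^ 2 + r ^ 3 + r ^ 4) / 48) * Polynomial.X ^ 4 +
  Polynomial.C (r ^ 5 / 120) * Polynomial.X ^ 5

lemma pp_coeff_one (r : ℚ) : (pp r).coeff 1 =
    25 / 12 + r / 30 + 13 * r ^ 2 / 144 + r ^ 3 / 12 - r ^ 4 / 144 := by
  unfold pp
  simp only [Polynomial.coeff_add, Polynomial.coeff_C_mul, Polynomial.coeff_X_pow,
    Polynomial.coeff_C, Polynomial.coeff_X]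
  norm_num

lemma choose_five (n : ℕ) : ((n + 5).choose 5 : ℚ) =
    ((n : ℚ) + 1) * (n + 2) * (n + 3) * (n + 4) * (n + 5) / 120 := by
  induction n with
  | zero => norm_num
  | succ n ih =>
    have h4 : ∀ n : ℕ, ((n + 4).choose 4 : ℚ) = ((n : ℚ) + 1) * (n + 2) * (n + 3) * (n + 4) / 24 := by
      intro n
      induction n with
      | zero => norm_num
      | succ n ih =>
        have h3 : ∀ n : ℕ, ((n + 3).choose 3 : ℚ) = ((n : ℚ) + 1) * (n + 2) * (n + 3) / 6 := by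
          intro n
          induction n with
          | zero => norm_num
          | succ n ih =>
            have h2 : ((n + 1 + 2).choose 2 : ℚ) = ((n : ℚ) + 2) * (n + 3) / 2 := by
              rw [Nat.cast_choose_two]; push_cast; ring
            have e : n + 1 + 3 = (n + 3) + 1 := by ring
            rw [e, Nat.choose_succ_succ, Nat.cast_add, ih]
            have e' : n + 3 = n + 1 + 2 := by ring
            rw [e', h2]; push_cast; ring
        have e : n + 1 + 4 = (n + 4) + 1 := by ring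
        rw [e, Nat.choose_succ_succ, Nat.cast_add, ih]
        have e' : n + 4 = (n + 1) + 3 := by ring
        rw [e', h3]; push_cast; ring
    have e : n + 1 + 5 = (n + 5) + 1 := by ring
    rw [e, Nat.choose_succ_succ, Nat.cast_add, ih]
    have e' : n + 5 = (n + 1) + 4 := by ring
    rw [e', h4]; push_cast; ring

lemma cnt_cast (t j : ℕ) (hj : j ≤ 5) : (cnt 5 t j : ℚ) =
    ((t : ℚ) - j + 1) * (t - j + 2) * (t - j + 3) * (t - j + 4) * (t - j + 5) / 120 := by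
  unfold cnt
  split_ifs with h
  · rw [choose_five, Nat.cast_sub h]
  · push Not at h
    have ht : t < 5 := by omega
    interval_cases j <;> interval_cases t <;> norm_num at h ⊢

lemma ehr_poly (ρ : ℕ) (hρ : 1 ≤ ρ) (t : ℕ) :
    (ehr (baseSimplex (ρ + 1) 5) t : ℚ) = (pp ((ρ + 1 : ℕ) : ℚ)).eval (t : ℚ) := by
  rw [ehr_eq, Nat.cast_sum, SS_five ρ hρ (fun w => (cnt 5 t w : ℚ))]
  unfold g5 pp
  simp only [zero_add]
  rw [cnt_cast t 0 (by norm_num), cnt_cast t 1 (by norm_num), cnt_cast t 2 (by norm_num),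
    cnt_cast t 3 (by norm_num), cnt_cast t 4 (by norm_num), cnt_cast t 5 (by norm_num)]
  simp only [Polynomial.eval_add, Polynomial.eval_mul, Polynomial.eval_C, Polynomial.eval_pow,
    Polynomial.eval_X]
  push_cast
  ring

lemma coeff_neg (r : ℚ) (hr : 14 ≤ r) :
    25 / 12 + r / 30 + 13 * r ^ 2 / 144 + r ^ 3 / 12 - r ^ 4 / 144 < 0 := by
  obtain ⟨x, rfl⟩ : ∃ x, r = 14 + x := ⟨r - 14, by ring⟩
  have hx : 0 ≤ x := by linarith
  have h2 : 0 ≤ x ^ 2 := by positivity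
  have h3 : 0 ≤ x ^ 3 := by positivity
  have h4 : 0 ≤ x ^ 4 := by positivity
  have e : 25 / 12 + (14 + x) / 30 + 13 * (14 + x) ^ 2 / 144 + (14 + x) ^ 3 / 12 - (14 + x) ^ 4 / 144 =
      -(268 / 15) - (4439 / 180) * x - (659 / 144) * x ^ 2 - (11 / 36) * x ^ 3 - (1 / 144) * x ^ 4 := by
    ring
  rw [e]
  linarith

/-- The base-`r` simplices are not always Ehrhart positive: for every `r ≥ 14` the coefficient of
`t` in the Ehrhart polynomial of the 5-dimensional base-`r` simplex is negative. -/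
theorem result :
    (∀ r : ℕ, 14 ≤ r → ∃ p : Polynomial ℚ,
      (∀ t : ℕ, (ehr (baseSimplex r 5) t : ℚ) = p.eval (t : ℚ)) ∧
      p.coeff 1 = 25 / 12 + (r : ℚ) / 30 + 13 * (r : ℚ) ^ 2 / 144 + (r : ℚ) ^ 3 / 12 - (r : ℚ) ^ 4 / 144 ∧
      p.coeff 1 < 0) ∧
    (∀ r : ℕ, 14 ≤ r → ¬ EhrhartPositive (baseSimplex r 5)) ∧
    ¬ ∀ r d : ℕ, 2 ≤ r → 1 ≤ d → EhrhartPositive (baseSimplex r d) := by
  have h1 : ∀ r : ℕ, 14 ≤ r → ∃ p : Polynomial ℚ,
      (∀ t : ℕ, (ehr (baseSimplex r 5) t : ℚ) = p.eval (t : ℚ)) ∧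
      p.coeff 1 = 25 / 12 + (r : ℚ) / 30 + 13 * (r : ℚ) ^ 2 / 144 + (r : ℚ) ^ 3 / 12 - (r : ℚ) ^ 4 / 144 ∧
      p.coeff 1 < 0 := by
    intro r hr
    obtain ⟨ρ, rfl⟩ : ∃ ρ, r = ρ + 1 := ⟨r - 1, by omega⟩
    have hr' : (14 : ℚ) ≤ ((ρ + 1 : ℕ) : ℚ) := by exact_mod_cast hr
    refine ⟨pp ((ρ + 1 : ℕ) : ℚ), ehr_poly ρ (by omega), pp_coeff_one _, ?_⟩
    rw [pp_coeff_one]
    exact coeff_neg _ hr'
  have h2 : ∀ r : ℕ, 14 ≤ r → ¬ EhrhartPositive (baseSimplex r 5) := by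
    intro r hr ⟨p, hp, hpos⟩
    obtain ⟨p', hp', _, hneg⟩ := h1 r hr
    have : p = p' := by
      apply Polynomial.eq_of_infinite_eval_eq
      apply Set.Infinite.mono (s := Set.range (fun t : ℕ => (t : ℚ)))
      · rintro _ ⟨t, rfl⟩
        show p.eval (t : ℚ) = p'.eval (t : ℚ)
        rw [← hp, ← hp']
      · exact Set.infinite_range_of_injective Nat.cast_injective
    have := hpos 1 (by norm_num)
    subst p
    linarith
  exact ⟨h1, h2, fun h => h2 14 le_rfl (h 14 5 (by norm_num) (by norm_num))⟩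

end Pool.Agent.Results.MP_ffae75_co.NegativeLinear
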